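import Pool.Agent.H25.ProgLaw

set_option autoImplicit false

/-!
# Almost primes in every residue class: the number with the main term `x / φ(q)` and the laws of the gaps

Call `n` good if it has no prime factor up to `x ^ (1 / r)`, and let `U` be the product of `1 - 1 / p` over
these primes. Montgomery's conjecture concerns the primes in one residue class modulo `q`, uniformly in `q`.
For the good integers in EVERY reduced residue class modulo `q`, for EVERY `q ≤ x` with `q ≤ B φ(q)` and for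
EVERY interval of length `Y ≥ q x ^ θ` the number is `Y U / φ(q)`, and the gaps between them follow the laws of
a Poisson process of intensity `U / φ(q)`.
-/

namespace Pool.Agent.Results.MP_848d44_nt.LawsInEveryClass

open Finset

/-- No prime `p ≤ x ^ (1 / r)` divides `n`. -/
def Good (x r n : ℕ) : Prop :=
  ∀ p : ℕ, p.Prime → (p : ℝ) ≤ (x : ℝ) ^ (1 / (r : ℝ)) → ¬ p ∣ n

open Classical in
/-- The number of the good `n ≡ a (mod q)` in `(u, u + Y]` with fewer than `l` good `m ≡ a (mod q)` in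
`[n - T, n)`. -/
noncomputable def G (q a x r l T u Y : ℕ) : ℕ :=
  ((Ioc u (u + Y)).filter (fun n => (n % q = a % q ∧ Good x r n) ∧
    ((Ico (n - T) n).filter (fun m => m % q = a % q ∧ Good x r m)).card < l)).card

/-- The product of `1 - 1 / p` over the primes `p ≤ x ^ (1 / r)`. -/
noncomputable def U (x r : ℕ) : ℝ :=
  ∏ p ∈ (Icc 1 ⌊(x : ℝ) ^ (1 / (r : ℝ))⌋₊).filter Nat.Prime, (1 - 1 / (p : ℝ))

/-- **Number and gap laws of the almost primes in every residue class, uniformly in the modulus.** -/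
theorem result (θ : ℝ) (hθ : 0 < θ) (l₀ : ℕ) (x₀ ε : ℝ) (hε : 0 < ε) :
    ∃ r₀ : ℕ, ∀ r : ℕ, r₀ ≤ r → ∀ B : ℝ, ∃ X₀ : ℕ, ∀ x : ℕ, X₀ ≤ x →
      (∀ n : ℕ, n ≠ 0 → n ≤ x → Good x r n → n.primeFactorsList.length ≤ r) ∧
      ∀ q a : ℕ, 1 ≤ q → q ≤ x → Nat.Coprime q a → (q : ℝ) ≤ B * q.totient →
      ∀ u Y : ℕ, (q : ℝ) * (x : ℝ) ^ θ ≤ Y → ∀ l T : ℕ,
        (l ≤ l₀ ∨ T * U x r / q.totient ≤ x₀) →
        |(G q a x r l T u Y : ℝ) - Y * U x r / q.totient *
          ∑ j ∈ range l, Real.exp (-(T * U x r / q.totient)) *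
            (T * U x r / q.totient) ^ j / j.factorial| ≤
        ε * (Y * U x r / q.totient) := by
  obtain ⟨r₀, _, h⟩ := Pool.Agent.H25.ProgLaw.law θ hθ l₀ x₀ ε hε
  exact ⟨r₀, h⟩

end Pool.Agent.Results.MP_848d44_nt.LawsInEveryClass
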