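import Pool.Agent.V11249.NP.Fix

/-!
# Arithmetic progressions of primes in arithmetic progressions to large moduli

For all coprime `q, a`, whatever their size, consider the `n` in a window `(A, A + N]` for which `a + n q` is prime, that
is the primes `≡ a` modulo `q` in an interval of length `q N`; here `N` may be an arbitrarily small power of `q`. Their
number has the expected order of magnitude `N V` if and only if the number of the `k`-term arithmetic progressions formed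
by the `n` with differences up to `D` has the expected order of magnitude `N D V ^ k`, for all `D` between a power of
`log N` and `N`; the constants depend only on `k`. The same holds for all sets of `n` at which `a + n q` has no prime
factor `≤ N ^ κ` (Szemerédi's theorem relative to these sets, and its converse).
-/

set_option autoImplicit false

open Finset Polynomial Pool.Agent.V11249.NP

namespace Pool.Agent.Results.MP_848d44_nt.ProgressionsOfPrimes

/-- the sieve product over the primes `p ≤ N ^ κ` which do not divide `q` -/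
noncomputable def V (q : ℕ) (κ : ℝ) (N : ℕ) : ℝ :=
  ∏ p ∈ (Icc 1 ⌊(N : ℝ) ^ κ⌋₊).filter (fun p => p.Prime ∧ ¬ p ∣ q), (1 - 1 / (p : ℝ))

/-- the integers `n` in `(A, A + N]` for which `a + n q` is prime -/
def P (q a : ℕ) (A N : ℕ) : Finset ℕ := (Ioc A (A + N)).filter (fun n : ℕ => (a + n * q).Prime)

/-- all prime factors of `a + n q` are larger than `N ^ κ` -/
def Rough (q a : ℕ) (κ : ℝ) (N n : ℕ) : Prop := ∀ p : ℕ, p.Prime → p ∣ a + n * q → (N : ℝ) ^ κ < p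

open Classical in
/-- The number of the progressions `n, n + d, …, n + (k - 1) d` in `S` with `1 ≤ d ≤ D`. -/
noncomputable def AP (k D : ℕ) (S : Finset ℕ) : ℕ :=
  ((S ×ˢ Icc 1 D).filter (fun q => ∀ j < k, q.1 + j * q.2 ∈ S)).card

/-- the system -/
noncomputable def F (q a : ℕ) : Fin 1 → ℤ[X] := fun _ => C (q : ℤ) * X + C (a : ℤ)

theorem ev (q a : ℕ) (i : Fin 1) (n : ℕ) : (F q a i).eval (n : ℤ) = ((a + n * q : ℕ) : ℤ) := by
  simp [F]
  ring

theorem deg (q a : ℕ) (hq : 1 ≤ q) (i : Fin 1) : (F q a i).natDegree = 1 := by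
  show (C (q : ℤ) * X + C (a : ℤ)).natDegree = 1
  exact natDegree_linear (by exact_mod_cast (by omega : q ≠ 0))

theorem adm (q a : ℕ) (h : q.Coprime a) :
    ∀ p : ℕ, p.Prime → ∃ m : ℕ, ∀ i, ¬ (p : ℤ) ∣ (F q a i).eval (m : ℤ) := by
  intro p hp
  by_cases h0 : p ∣ a
  · refine ⟨1, fun i hi => ?_⟩
    rw [ev, Int.natCast_dvd_natCast, one_mul] at hi
    have h1 : p ∣ q := (Nat.dvd_add_right h0).1 hi
    have h2 := Nat.dvd_gcd h1 h0
    rw [h] at h2
    exact hp.one_lt.ne' (Nat.dvd_one.1 h2)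
  · refine ⟨0, fun i hi => h0 ?_⟩
    rw [ev, Int.natCast_dvd_natCast, zero_mul, add_zero] at hi
    exact hi

theorem us (q a : ℕ) (hq : 1 ≤ q) (h : q.Coprime a) : UniG.US 1 (F q a) :=
  ⟨fun i => by rw [deg q a hq]; exact ⟨le_rfl, le_rfl⟩, adm q a h⟩

theorem card_ZZ (q a p : ℕ) (h : q.Coprime a) (hp : p.Prime) :
    (if p ∣ q then 0 else 1) = (UniG.ZZ (F q a) p).card := by
  classical
  split_ifs with h1
  · symm
    rw [card_eq_zero, eq_empty_iff_forall_notMem]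
    intro x hx
    obtain ⟨-, i, hi⟩ := UniG.mem_ZZ.1 hx
    rw [ev, Int.natCast_dvd_natCast] at hi
    have h2 : p ∣ a := (Nat.dvd_add_left (h1.mul_left x)).1 hi
    have h3 := Nat.dvd_gcd h1 h2
    rw [h] at h3
    exact hp.one_lt.ne' (Nat.dvd_one.1 h3)
  · have : Fact p.Prime := ⟨hp⟩
    have : NeZero p := ⟨hp.ne_zero⟩
    have hq0 : ((q : ℕ) : ZMod p) ≠ 0 := by
      intro h2
      exact h1 ((ZMod.natCast_eq_zero_iff q p).1 h2)
    have e : UniG.ZZ (F q a) p = {(-(a : ZMod p) / (q : ZMod p)).val} := by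
      ext x
      rw [UniG.mem_ZZ, mem_singleton]
      have key : ∀ x : ℕ, (∃ i, (p : ℤ) ∣ (F q a i).eval (x : ℤ)) ↔ ((x : ℕ) : ZMod p) = -(a : ZMod p) / (q : ZMod p) := by
        intro x
        rw [Fin.exists_fin_one, ev, Int.natCast_dvd_natCast, ← ZMod.natCast_eq_zero_iff, eq_div_iff hq0]
        push_cast
        constructor
        · intro h2
          linear_combination h2
        · intro h2
          linear_combination h2
      rw [key]
      constructor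
      · rintro ⟨h2, h3⟩
        rw [← h3, ZMod.val_natCast, Nat.mod_eq_of_lt h2]
      · intro h2
        rw [h2]
        refine ⟨ZMod.val_lt _, ?_⟩
        simp
    rw [e, card_singleton]

theorem V_eq (q a : ℕ) (h : q.Coprime a) (κ : ℝ) (N : ℕ) : V q κ N = UniG.V (F q a) κ N := by
  rw [← UniG.V_eq (F q a) κ N (fun p => if p ∣ q then 0 else 1) (fun p hp => card_ZZ q a p h hp)]
  unfold V
  rw [← filter_filter]
  rw [← prod_filter_mul_prod_filter_not ((Icc 1 ⌊(N : ℝ) ^ κ⌋₊).filter Nat.Prime) (fun p => p ∣ q)]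
  have e1 : ∏ p ∈ ((Icc 1 ⌊(N : ℝ) ^ κ⌋₊).filter Nat.Prime).filter (fun p => p ∣ q),
      (1 - ((if p ∣ q then 0 else 1 : ℕ) : ℝ) / p) = 1 := by
    apply prod_eq_one
    intro p hp
    rw [if_pos (mem_filter.1 hp).2]
    norm_num
  rw [e1, one_mul]
  apply prod_congr rfl
  intro p hp
  rw [if_neg (mem_filter.1 hp).2]
  norm_num

/-- For every `k ≥ 1`, with constants which do not depend on `q, a` nor on the window:
(1) for `κ > 0` a set `S` of integers of `(A, A + N]` at which `a + n q` has no prime factor `≤ N ^ κ` contains at most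
`C N D V ^ k` progressions of length `k` with differences at most `D`;
(2) it contains at least `c₀ N D V ^ k` of them if it has at least `δ N V` elements, and it has at least
`c₀ N V` elements if it contains at least `δ N D V ^ k` of them, for all `D` between `log ^ B N` and `N`;
(3), (4) the same for the set `P` (with `κ = 1/4` in `V`). -/
theorem result (k : ℕ) (hk : 1 ≤ k) :
    (∀ κ : ℝ, 0 < κ → ∃ C : ℝ, 0 < C ∧ ∃ B N₀ : ℕ, ∀ q a : ℕ, 1 ≤ q ∧ q.Coprime a → ∀ N A D : ℕ,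
      N₀ ≤ N → Real.log N ^ B ≤ D → ∀ S : Finset ℕ, S ⊆ Ioc A (A + N) → (∀ n ∈ S, Rough q a κ N n) →
        (AP k D S : ℝ) ≤ C * (N * D * V q κ N ^ k)) ∧
    (∀ κ δ : ℝ, 0 < κ → 0 < δ → ∃ c₀ : ℝ, 0 < c₀ ∧ ∃ B N₀ : ℕ, ∀ q a : ℕ, 1 ≤ q ∧ q.Coprime a → ∀ N A D : ℕ,
      N₀ ≤ N → Real.log N ^ B ≤ D → D ≤ N → ∀ S : Finset ℕ, S ⊆ Ioc A (A + N) →
        (∀ n ∈ S, Rough q a κ N n) →
        (δ * (N * V q κ N) ≤ S.card → c₀ * (N * D * V q κ N ^ k) ≤ AP k D S) ∧
        (δ * (N * D * V q κ N ^ k) ≤ AP k D S → c₀ * (N * V q κ N) ≤ S.card)) ∧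
    (∃ C : ℝ, 0 < C ∧ ∃ B N₀ : ℕ, ∀ q a : ℕ, 1 ≤ q ∧ q.Coprime a → ∀ N A D : ℕ, N₀ ≤ N →
      Real.log N ^ B ≤ D → (AP k D (P q a A N) : ℝ) ≤ C * (N * D * V q (1 / 4) N ^ k)) ∧
    (∀ δ : ℝ, 0 < δ → ∃ c₀ : ℝ, 0 < c₀ ∧ ∃ B N₀ : ℕ, ∀ q a : ℕ, 1 ≤ q ∧ q.Coprime a → ∀ N A D : ℕ, N₀ ≤ N →
      Real.log N ^ B ≤ D → D ≤ N →
      (δ * (N * V q (1 / 4) N) ≤ (P q a A N).card →
        c₀ * (N * D * V q (1 / 4) N ^ k) ≤ AP k D (P q a A N)) ∧
      (δ * (N * D * V q (1 / 4) N ^ k) ≤ AP k D (P q a A N) →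
        c₀ * (N * V q (1 / 4) N) ≤ (P q a A N).card)) := by
  obtain ⟨a1, a2, a3, a4⟩ := UniG.transfer 1 1 (fun θ : ℕ × ℕ => F θ.1 θ.2)
    (fun θ => 1 ≤ θ.1 ∧ θ.1.Coprime θ.2) (fun θ h => us θ.1 θ.2 h.1 h.2) (fun θ => Rough θ.1 θ.2)
    (fun θ => P θ.1 θ.2) (fun θ => V θ.1)
    (fun θ _ κ N n h i p hp hd => h p hp (by rwa [ev, Int.natCast_dvd_natCast] at hd))
    (fun θ _ A N n => by
      unfold P
      rw [mem_filter, mem_Ioc, Fin.forall_fin_one, ev, Int.natAbs_natCast])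
    (fun θ h κ N => V_eq θ.1 θ.2 h.2 κ N) k hk
  refine ⟨?_, ?_, ?_, ?_⟩
  · intro κ hκ
    obtain ⟨C, hC, B, N₀, h⟩ := a1 κ hκ
    exact ⟨C, hC, B, N₀, fun q a => h (q, a)⟩
  · intro κ δ hκ hδ
    obtain ⟨C, hC, B, N₀, h⟩ := a2 κ δ hκ hδ
    exact ⟨C, hC, B, N₀, fun q a => h (q, a)⟩
  · obtain ⟨C, hC, B, N₀, h⟩ := a3
    exact ⟨C, hC, B, N₀, fun q a => h (q, a)⟩
  · intro δ hδ
    obtain ⟨C, hC, B, N₀, h⟩ := a4 δ hδ
    exact ⟨C, hC, B, N₀, fun q a => h (q, a)⟩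

end Pool.Agent.Results.MP_848d44_nt.ProgressionsOfPrimes
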